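import Pool.Agent.R239.Newt.Fam
import Pool.Agent.R239.Newt.Supp

/-!
# Linearly many Newton starting points for the roots on the boundary of the convex hull
-/

set_option autoImplicit false

namespace Pool.Agent.Results.MP_26a6ef_an.HullRoots

open Filter Topology Metric Set Polynomial

/-- The Newton map `N_p(z) = z - p(z) / p'(z)`. At a (possibly multiple) root of `p` the quotient
is `0` in Lean, so that `N_p` fixes every root of `p`. -/
noncomputable def newton (p : ℂ[X]) (z : ℂ) : ℂ := z - p.eval z / p.derivative.eval z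

/-- `z₀` converges to `α`: all Newton iterates of `z₀` are defined, that is, each iterate is a
root of `p` (a fixed point of `N_p`) or a point where `p'` does not vanish, and the iterates
tend to `α`. -/
def ConvergesTo (p : ℂ[X]) (z₀ α : ℂ) : Prop :=
  (∀ n : ℕ, p.eval ((newton p)^[n] z₀) = 0 ∨ p.derivative.eval ((newton p)^[n] z₀) ≠ 0) ∧
    Tendsto (fun n => (newton p)^[n] z₀) atTop (𝓝 α)

open Pool.Agent.R239.Newt

/-- the family of roots with multiplicity -/
noncomputable def rts (p : ℂ[X]) : p.roots.ToType → ℂ := fun x => x.1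

lemma rts_spec {p : ℂ[X]} (hp : p ≠ 0) (z : ℂ) : (∃ j, z = rts p j) ↔ p.eval z = 0 := by
  constructor
  · rintro ⟨j, rfl⟩
    have : rts p j ∈ p.roots := Multiset.coe_mem
    exact (mem_roots hp).1 this
  · intro h
    have : z ∈ p.roots := (mem_roots hp).2 h
    exact ⟨⟨z, ⟨0, Multiset.count_pos.2 this⟩⟩, rfl⟩

lemma S_rts {p : ℂ[X]} {z : ℂ} (hz : p.eval z ≠ 0) :
    S (rts p) z = p.derivative.eval z / p.eval z := by
  rw [(IsAlgClosed.splits p).eval_derivative_div_eval_of_ne_zero hz]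
  unfold S
  simp_rw [one_div]
  have h := congrArg Multiset.sum (Multiset.map_univ p.roots (fun w : ℂ => (z - w)⁻¹))
  rw [← h]
  unfold Finset.sum rts
  congr 1

lemma newton_eq {p : ℂ[X]} (hp : p ≠ 0) : newton p = Nw (rts p) := by
  funext z
  by_cases h : p.eval z = 0
  · rw [Nw_root ((rts_spec hp z).2 h), newton, h, zero_div, sub_zero]
  · have h2 : ∀ j, z ≠ rts p j := by
      intro j hj
      exact h ((rts_spec hp z).1 ⟨j, hj⟩)
    rw [Nw_of_ne h2, S_rts h, inv_div, newton]

lemma conv_iff {p : ℂ[X]} (hp : p ≠ 0) {z α : ℂ} (h : Conv (rts p) α z) : ConvergesTo p z α := by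
  obtain ⟨h1, h2⟩ := h
  rw [← newton_eq hp] at h1 h2
  refine ⟨fun n => ?_, h2⟩
  by_cases hz : p.eval ((newton p)^[n] z) = 0
  · exact Or.inl hz
  · right
    rcases h1 n with h3 | h3
    · exact absurd ((rts_spec hp _).1 h3) hz
    · rw [S_rts hz] at h3
      intro h4
      rw [h4, zero_div] at h3
      exact h3 rfl

lemma card_rts (p : ℂ[X]) : Fintype.card p.roots.ToType = p.natDegree := by
  rw [← IsAlgClosed.card_roots_eq_natDegree (p := p), ← Multiset.card_coe]

/-- For every `r > 1` there is a constant `c > 1` such that for every polynomial `p` of degree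
`d ≥ 1` with all roots in the open unit disc and every root `α` of `p` on the boundary of the
convex hull of the roots, one of the `⌈c d⌉` equidistributed points on the circle of radius `r`
converges to `α` under Newton's method. -/
theorem result : ∀ r : ℝ, 1 < r → ∃ c : ℝ, 1 < c ∧ ∀ p : ℂ[X], 1 ≤ p.natDegree →
    (∀ z : ℂ, p.IsRoot z → ‖z‖ < 1) →
    ∀ α : ℂ, p.IsRoot α → α ∈ frontier (convexHull ℝ {z : ℂ | p.IsRoot z}) →
      ∃ j : ℕ, j < ⌈c * p.natDegree⌉₊ ∧
        ConvergesTo p ((r : ℂ) *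
          Complex.exp (2 * Real.pi * Complex.I * j / (⌈c * p.natDegree⌉₊ : ℂ))) α := by
  intro r hr
  obtain ⟨ρ, hρ, hfam⟩ := family hr
  have hpi := Real.pi_pos
  have hr0 : 0 < r := by linarith
  refine ⟨2 + 2 * Real.pi * r / ρ, ?_, ?_⟩
  · have : 0 < 2 * Real.pi * r / ρ := by positivity
    linarith
  intro p hd hroots α hα hfr
  have hp : p ≠ 0 := by
    rintro rfl
    simp at hd
  have hd' : (1 : ℝ) ≤ p.natDegree := by exact_mod_cast hd
  obtain ⟨j0, hj0⟩ := (rts_spec hp α).2 hα
  -- supporting direction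
  have hfin : {z : ℂ | p.IsRoot z}.Finite := by
    have : {z : ℂ | p.IsRoot z} = ↑p.roots.toFinset := by
      ext z
      simp [hp]
    rw [this]
    exact Finset.finite_toSet _
  have hKc : IsClosed (convexHull ℝ {z : ℂ | p.IsRoot z}) :=
    (hfin.isCompact_convexHull ℝ).isClosed
  obtain ⟨u, hu, hsup⟩ := exists_supp (convex_convexHull ℝ _) hKc
    ⟨α, subset_convexHull ℝ _ hα⟩ hfr
  have hrt : ∀ j, p.IsRoot (rts p j) := fun j => (rts_spec hp _).1 ⟨j, rfl⟩
  obtain ⟨y, hy, hball⟩ := hfam _ (rts p) (fun j => hroots _ (hrt j)) j0 u hu (fun j => by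
    rw [← hj0]
    exact hsup _ (subset_convexHull ℝ _ (hrt j)))
  rw [card_rts, ← hj0] at hball
  set c : ℝ := 2 + 2 * Real.pi * r / ρ with hc
  have hcd : 0 < c * p.natDegree := by
    have : 0 < 2 * Real.pi * r / ρ := by positivity
    positivity
  have hN : 0 < ⌈c * p.natDegree⌉₊ := Nat.ceil_pos.2 hcd
  obtain ⟨j, hj, hjy⟩ := exists_equi hr0 hy hN
  refine ⟨j, hj, conv_iff hp (hball _ (hjy.trans_lt ?_))⟩
  have hle : c * p.natDegree ≤ (⌈c * p.natDegree⌉₊ : ℝ) := Nat.le_ceil _
  have hN0 : (0 : ℝ) < (⌈c * p.natDegree⌉₊ : ℝ) := by exact_mod_cast hN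
  have hd0 : (0 : ℝ) < p.natDegree := by linarith
  have h1 : r * (2 * Real.pi / (⌈c * p.natDegree⌉₊ : ℝ)) ≤ r * (2 * Real.pi / (c * p.natDegree)) := by
    gcongr
  refine h1.trans_lt ?_
  have h2 : 2 * Real.pi * r < c * ρ := by
    have : c * ρ = 2 * ρ + 2 * Real.pi * r := by rw [hc]; field_simp
    linarith
  have h3 : r * (2 * Real.pi / (c * p.natDegree)) = (2 * Real.pi * r / c) / p.natDegree := by
    field_simp
  rw [h3]
  have hc0 : 0 < c := pos_of_mul_pos_left hcd hd0.le
  apply div_lt_div_of_pos_right _ hd0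
  rw [div_lt_iff₀ hc0]
  linarith

end Pool.Agent.Results.MP_26a6ef_an.HullRoots
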